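import Pool.Agent.Zk51.KT.Final

/-!
# Kimura finite-dimensionality and the growth of the numerically trivial correspondences

`C` is a `ℚ`-linear, idempotent complete, rigid symmetric monoidal category with `End(1) = ℚ`
(`IsReal`) and with a realisation `R` in finite dimensional super vector spaces over an algebraically
closed field `K`: for the problem, the category of Chow motives over the complex numbers with its
Betti realisation. `Φ : D ⥤ C` is a faithful symmetric monoidal `ℚ`-linear functor from another rigid
`ℚ`-linear category, for example the inclusion of the tensor subcategory generated by some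
correspondences, or the identity of `C`. The object `T` of `D` is such that the projector to the even
part of the realisation of `Φ T` comes from an endomorphism `p` of `T` in `D` (sign conjecture, a
necessary condition for Kimura finiteness when `D = C`), and `b > 0` is the dimension of the
realisation.

Numerically trivial morphisms are understood in `D` (`numIdeal`, `NumTriv`). A nil system on an
object `Y` of `D` (`NilSystem`) is a family of subspaces `U Z` of the spaces `Hom(Y, Z)`, stable under
composition with morphisms from `Z`, such that the elements of `U Y` are nilpotent. (For `D = C` the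
correspondences which are algebraically equivalent to zero form a nil system, by the theorem of
Voevodsky and Voisin.) `ndim S Z` is the dimension, possibly infinite, of the space of the
numerically trivial morphisms from `Y` to `Z` modulo `U Z`.

Theorem. The following are equivalent:
(1) `Φ T` is Kimura finite;
(2) the numerically trivial endomorphisms of all tensor powers of `T` are nilpotent;
(3) for some nil system on `Y = T^⊗(b + 1)` all the dimensions are zero;
(4) for some nil system on `Y` and some `n ≥ 128 b^12` the dimension for `Z = Y ⊗ (T ⊗ Tᘁ)^⊗n` is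
    smaller than `b^(2n) / (2 (n + 1)^(b^2))`;
(5) for some nil system on `Y` the quotients of the dimension for `Z = Y ⊗ (T ⊗ Tᘁ)^⊗n` by the rank
    of `End(T^⊗n)` modulo numerical equivalence do not tend to infinity.
-/

set_option autoImplicit false

open CategoryTheory Limits MonoidalCategory Module Filter Topology
open Pool.Agent.Y112.SR Pool.Agent.Y112.KD Pool.Agent.R905 Pool.Agent.N64.AF
open Pool.Agent.Zk51.NK Pool.Agent.Zk51.KT
open scoped ENNReal

universe v u w v' u'

namespace Pool.Agent.Results.MP_868bb7_ag.GrowthDichotomy

/-- An object `T` which satisfies the sign conjecture is Kimura finite if and only if, for some nil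
system, the numerically trivial morphisms modulo the nil system grow slowly. -/
theorem result {C : Type u} [Category.{v} C] [Preadditive C] [MonoidalCategory C]
    [MonoidalPreadditive C] [SymmetricCategory C] [RightRigidCategory C]
    [Linear ℚ C] [MonoidalLinear ℚ C] [IsIdempotentComplete C]
    {K : Type w} [Field K] [IsAlgClosed K] [Algebra ℚ K] {R : SuperRealisation C K}
    (hR : IsReal ℚ R)
    {D : Type u'} [Category.{v'} D] [Preadditive D] [MonoidalCategory D]
    [MonoidalPreadditive D] [SymmetricCategory D] [RightRigidCategory D]
    [Linear ℚ D] [MonoidalLinear ℚ D]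
    (Φ : D ⥤ C) [Φ.Braided] [Φ.Additive] [Φ.Linear ℚ] [Φ.Faithful]
    {T : D} (p : T ⟶ T) (hp : (2 : K) • R.H.map (Φ.map p) = 𝟙 _ + R.par (Φ.obj T))
    {b : ℕ} (hb : finrank K (R.H.obj (Φ.obj T)) = b) (h0 : 0 < b) :
    List.TFAE [IsKimuraFinite (Φ.obj T),
      ∀ m (y : End (tp T m)), NumTriv (y : tp T m ⟶ tp T m) → IsNilpotent y,
      ∃ S : NilSystem (tp T (b + 1)), ∀ Z : D, ndim S Z = 0,
      ∃ (S : NilSystem (tp T (b + 1))) (n : ℕ), 128 * b ^ 12 ≤ n ∧
        (2 * (n + 1) ^ (b ^ 2) : ℕ) * ndim S (tp T (b + 1) ⊗ tp (T ⊗ Tᘁ) n) <
          ((b ^ (2 * n) : ℕ) : ℕ∞),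
      ∃ S : NilSystem (tp T (b + 1)),
        ¬ Tendsto (fun n => ((ndim S (tp T (b + 1) ⊗ tp (T ⊗ Tᘁ) n) : ℕ∞) : ℝ≥0∞) /
          numDim ℚ (tp T n) (tp T n)) atTop (𝓝 ⊤)] :=
  kimura_tfae Φ hR p hp hb h0

end Pool.Agent.Results.MP_868bb7_ag.GrowthDichotomy
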