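import Pool.Agent.Zk74.KF.Final

/-!
# Kimura finiteness of an isotrivial product and of its factors

`C` is a `ℚ`-linear, idempotent complete, rigid symmetric monoidal category with finite sums and
`End(1) = ℚ` (`UnitQ`), with a realisation `R` in finite dimensional super vector spaces over a
field `K`: for the problem, the category of Chow motives over the complex numbers with its Betti
realisation, `K = ℚ`. The finite group `G` acts on the objects `M` and `N` (`a`, `b`), and `T` is the
quotient of `M ⊗ N` by the diagonal action of `G` (`IsQuot`, `diag`). For the problem `M = h(X)` and
`N = h(Y)` are the motives of smooth projective varieties with an action of `G`, and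
`T = h((X × Y)/G)`, for example an isotrivial family over `Y/G` with fibre `X`, or over `X/G` with
fibre `Y`.

`SeesOn a b`: the irreducible rational representations of `G` which occur in `M` occur in `N` modulo
numerical equivalence; more precisely, an element of `ℚ[G]` which acts on `N` as a numerically trivial
endomorphism acts on `M` as zero. This is so for all `M` if all irreducible representations occur in
`N`, for instance if `tr (b g) = 0` for all `g ≠ 1` and `tr (𝟙 N) ≠ 0`, as for a variety `Y` with
nonzero Euler characteristic on which `G` acts without fixed points.

`RatTraces R b`: the traces of the elements of `G` on the realisation of `N` are rational numbers.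
This is so if `K = ℚ`, and for all `K` if `N` satisfies the sign conjecture (`CPlus`).

Theorem. (1) If `T` is finite-dimensional in the sense of Kimura (`IsKimuraFinite`) and the
representations which occur in `M` occur in `N`, then `M` is Kimura finite. Nothing is assumed about
the finiteness of `N`.
(2) If `T` is Kimura finite and `H` is a subgroup such that all irreducible rational representations
with a nonzero vector fixed by `H` occur in `N` modulo numerical equivalence (`SeesNum`), then the
quotient of `M` by `H` is Kimura finite.
(3) If the same irreducible representations occur in `M` and in `N`, then `T` is Kimura finite if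
and only if both `M` and `N` are.

So for smooth projective varieties `X` and `Y` on which `G` acts without fixed points, with nonzero
Euler characteristics, `(X × Y)/G` is Kimura finite if and only if `X` and `Y` are. It was known that
`T` is Kimura finite if `M` and `N` are (Kimura). For the trivial group the theorem says that the
tensor product of two objects with nonzero realisations is Kimura finite only if both are; this is in
the starting library (R905, used for noncommutative motives).

Proof. Homologically trivial endomorphisms of `T^⊗n` are contained in a nilpotent ideal. `T^⊗n` is the
quotient of `W ⊗ U`, for `W = M^⊗n` and `U = N^⊗n`, by the diagonal action of `Γ = G^n`. Let `J` be the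
ideal of the homologically trivial endomorphisms of `W`, and `J^Γ` its equivariant elements. They act
on `T^⊗n`, so a product `w` of many of them is zero there, and the partial trace over `U` of `w ⊗ y`,
`y : U ⟶ U`, shows that `w ∘ ∑ tr(β(γ) y) α(γ) = 0`. The elements `x` of `ℚ[Γ]` such that
`w ∘ α(x) = 0` are a two-sided ideal, so it contains an element which acts on `W` as the identity,
since the representations which occur in `W` occur in `U`. So `w = 0`: the ring `J^Γ` is nilpotent.
Then `J` is nil: over an algebraic closure `ℚ[Γ]` becomes a product of matrix algebras with matrix
units `e_ij`, and for a primitive idempotent `e = e_11` the map `z ↦ ∑ e_i1 z e_1i` from `e J e` to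
`J^Γ` is an injective homomorphism of rings, so the ideals `J e J` are nilpotent, and `J²` is
contained in the sum of finitely many of them. The sign conjecture passes from `T` to `M` because the
partial trace of the parity operator of `T` is the product of the parity of `M` with `∑ θ(g) a(g)`, `θ`
the character of `G` on the realisation of `N`. So `M` is Kimura finite.
-/

set_option autoImplicit false

open CategoryTheory Limits MonoidalCategory
open Pool.Agent.Y112.SR Pool.Agent.Y112.KD Pool.Agent.R905 Pool.Agent.Y116.MT
open Pool.Agent.X252.GA Pool.Agent.Zk74.KG Pool.Agent.Zk74.KF

universe v u w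

namespace Pool.Agent.Results.MP_868bb7_ag.IsotrivialFactors

/-- The traces of the elements of `G` on the realisation of `N` are rational numbers. -/
def RatTraces {C : Type u} [Category.{v} C] [Preadditive C] [MonoidalCategory C]
    [SymmetricCategory C] {K : Type w} [Field K] (R : SuperRealisation C K) {G : Type} [Group G]
    {N : C} (b : G →* End N) : Prop :=
  ∀ g, ∃ q : ℚ, LinearMap.trace K (R.H.obj N) (R.H.map (b g : N ⟶ N)).hom = (q : K)

/-- Kimura finiteness of an isotrivial product and of its factors. -/
theorem result {C : Type u} [Category.{v} C] [Preadditive C] [Linear ℚ C] [MonoidalCategory C]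
    [MonoidalPreadditive C] [MonoidalLinear ℚ C] [SymmetricCategory C] [RightRigidCategory C]
    [IsIdempotentComplete C] [HasBinaryBiproducts C] {K : Type w} [Field K]
    (R : SuperRealisation C K) (hU : UnitQ C) {G : Type} [Group G] [Fintype G] {M N T : C}
    (a : G →* End M) (b : G →* End N) (hT : IsQuot (diag a b) ⊤ T) :
    (RatTraces R b → SeesOn a b → IsKimuraFinite T → IsKimuraFinite M) ∧
    (RatTraces R b → IsKimuraFinite T → ∀ (H : Subgroup G) (Q : C), SeesNum b H →
      IsQuot a H Q → IsKimuraFinite Q) ∧
    (RatTraces R a → RatTraces R b → SeesOn a b → SeesOn b a →
      (IsKimuraFinite T ↔ IsKimuraFinite M ∧ IsKimuraFinite N)) ∧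
    (R.CPlus N → RatTraces R b) ∧
    (∀ R' : SuperRealisation C ℚ, RatTraces R' b) ∧
    (SeesNum b ⊥ → SeesOn a b) ∧
    ((∀ g, g ≠ 1 → tr (b g : N ⟶ N) = 0) → tr (𝟙 N) ≠ 0 → SeesNum b ⊥) :=
  ⟨fun hb hS hK => kf_factor_rat R hU a b hT hS hK hb,
    fun hb hK H Q hs hQ => quot_factor R hU a b hT hK hb hs hQ,
    fun ha hb h1 h2 => both R hU a b hT ha hb h1 h2,
    fun h g => rat_of_cplus R hU b h g,
    fun R' g => ⟨_, (Rat.cast_id _).symm⟩,
    sees_on_of_num a b,
    free_sees hU b⟩

end Pool.Agent.Results.MP_868bb7_ag.IsotrivialFactors
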