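import Pool.Agent.Zk50.KF.Main

/-!
# The Kimura finite part of a motive and the fifty percent law

`C` is a `ℚ`-linear, idempotent complete, rigid symmetric monoidal category with `End(1) = ℚ` and with
a realisation `R` in finite dimensional super vector spaces (`IsReal ℚ R`). For the problem `C` is the
category of Chow motives over the complex numbers, `R` is the Betti realisation, and `T = h(X)` for
any smooth projective variety `X`; `tp T n = h(X^n)` and `bt R T = b(X)` is the total Betti number.

`𝒦` is a tensor class: a class of Kimura finite objects which contains the unit object and is closed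
under direct summands, direct sums, tensor products and duals. The largest one is the class of all
Kimura finite objects; others are the motives of abelian type, the class generated by one Kimura
finite motive, and so on. Let `κ(T) = rk R 𝒦 T` be the largest rank (dimension of the realisation) of a
direct summand of `T` in `𝒦`, and `ι(T) = ind R 𝒦 T = 2 κ(T) - b(T)` the index of `T`, the rank of
this summand minus the rank of its complement. An object `T` is called full (`Full`) if it is the
direct sum of an object of `𝒦` and of a phantom, an object with trivial realisation.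

**Theorem.** (1) (`HasLargest`) `T` has a largest direct summand in `𝒦`: `T = A ⊕ Z`, `A` in `𝒦`, such that
all direct summands of `T` in `𝒦` are direct summands of `A`, and all composites `B → Z → B` with
`B` in `𝒦` are nilpotent.

(2) (`IndexRules`) `ι(X ⊕ Y) = ι(X) + ι(Y)`, `ι(T^∨) = ι(T)`, `ι(X ⊗ Y) ≤ ι(X) ι(Y)`, `|ι(T)| ≤ b(T)`,
and `ι(T) = b(T)` if and only if `T` is full.

(3) `T` is in `𝒦` if and only if it is full and its homologically trivial endomorphisms are nilpotent.

(4) (`PowerLaw`) Let `b = b(T) > 0`. Either there is `N ≥ 1` such that the powers `T^n` with `N ∣ n` are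
full and the others have no direct summand of positive rank in `𝒦`, or
`limsup κ(T^n) / b^n ≤ 1 / 2` (`AtMostHalf`). For all `n ≥ 1`

  `κ(T^n) ≤ max(κ(T), b - κ(T)) b^(n-1)`, and `2 κ(T^n) ≤ b^n + (2 κ(T) - b)^n` if `κ(T) ≥ b / 2`.

If `T` has some direct summand of positive rank in `𝒦`, for example if the unit object is a direct
summand of `T`, as for `T = h(X)`, then the following are equivalent:

* `T` is full;
* all powers of `T` are full;
* `κ(T^n) > b^n - b^(n-1)` for one `n ≥ 1`;
* the shares `κ(T^n) / b^n` do not satisfy `limsup ≤ 1 / 2`.

So if `h(X)` is not the sum of a Kimura finite motive and of a phantom then the same is true for more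
than 49 percent of the motive of `X^n`, for all large `n`; and 51 percent of infinitely many `h(X^n)` are
sufficient for 100 percent of all of them. The constant `1 / 2` is sharp in this generality (the object
`1 ⊕ V` of the category of Deligne which interpolates the representations of the orthogonal groups, at
`t = 1`).

The proof. Let `N` be an object such that all composites `B → N → B` with `B` in `𝒦` have trace zero. By
duality the same is true for `A ⊗ N` for `A` in `𝒦`. Endomorphisms of Kimura finite objects are
algebraic over `ℚ`, so by the lemma of Fitting a composite `B → N → B` with nonzero trace gives a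
common direct summand of `B` and `N` of positive rank. So (1) holds, and the complements `Z` are
orthogonal to `𝒦`. If `B` in `𝒦` is a direct summand of `(A ⊕ Z) ⊗ (A' ⊕ Z')` then the parts of the
identity of `B` which factor through `A ⊗ Z'` and `Z ⊗ A'` are in the radical, and `B` has at most the
rank of `A ⊗ A' ⊕ Z ⊗ Z'`. This is the inequality for the index. The rest is a consequence of
`ι(T^(m+n)) ≤ ι(T^m) ι(T^n)`.
-/

set_option autoImplicit false

open CategoryTheory Limits MonoidalCategory
open Pool.Agent.Y112.SR Pool.Agent.Y112.KD Pool.Agent.R905 Pool.Agent.N64.AF Pool.Agent.Zk50.KF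

universe v u w

namespace Pool.Agent.Results.MP_868bb7_ag.KimuraFinitePart

/-- The Kimura finite part of an object: largest summands, the index and the fifty percent law. -/
theorem result {C : Type u} [Category.{v} C] [Preadditive C] [MonoidalCategory C]
    [MonoidalPreadditive C] [SymmetricCategory C] [RightRigidCategory C]
    [Linear ℚ C] [MonoidalLinear ℚ C] [IsIdempotentComplete C]
    {K : Type w} [Field K] [Algebra ℚ K] {R : SuperRealisation C K} (hR : IsReal ℚ R) :
    IsTensorClass (IsKimuraFinite : C → Prop) ∧
    ∀ 𝒦 : C → Prop, IsTensorClass 𝒦 → (∀ T : C, HasLargest R 𝒦 T) ∧ IndexRules R 𝒦 ∧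
      (∀ T : C, 𝒦 T ↔ Full R 𝒦 T ∧ HomNil R T) ∧
      ∀ T : C, 0 < bt R T → PowerLaw R 𝒦 T :=
  ⟨kimura_class hR, fun _ h𝒦 => ⟨hasLargest hR h𝒦, indexRules hR h𝒦, mem_iff hR h𝒦,
    fun _ hb => powerLaw hR h𝒦 hb⟩⟩

end Pool.Agent.Results.MP_868bb7_ag.KimuraFinitePart
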