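import Pool.Agent.Zk90.KS.Ph

/-!
# Kimura-finiteness without projectors

Let `X` be a smooth projective variety, `Δ` its diagonal. Kimura-finiteness of `X` asks for an
idempotent self-correspondence `e` such that an exterior power of `(X, e)` and a symmetric power of
`(X, Δ - e)` vanish. For an arbitrary self-correspondence `a`, that is an arbitrary class in
`⊕_i CH^i(X × X)_ℚ`, not necessarily of codimension `dim X` and not necessarily idempotent, write
`Λ^n a = 0` if the class `∑_σ sign(σ) a(x_1, y_{σ 1}) ⋯ a(x_n, y_{σ n})` on `X^n × X^n` is zero, and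
`Sym^n a = 0` if this class without the signs is zero. For idempotents of degree zero this means that
`Λ^n (X, a)`, resp. `Sym^n (X, a)`, is zero.

**Theorem.** Let `n, m ≥ 0`. (1) The following are equivalent.

1. `h(X) = M₊ ⊕ M₋` with `Λ^(n+1) M₊ = 0` and `Sym^(m+1) M₋ = 0`.
2. `Δ = a + b` with self-correspondences `a`, `b` such that `Λ^(n+1) a = 0`, `Sym^(m+1) b = 0`.
3. There are such `a` and `b` for which `a + b` has a one-sided inverse under composition.
4. There are such `a` and `b` for which `Δ - (a + b)` is nilpotent.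
5. `Δ` is a sum of finitely many self-correspondences `a_i` and `b_j` with `Λ^(ν_i + 1) a_i = 0`,
   `Sym^(μ_j + 1) b_j = 0`, `∑ ν_i = n`, `∑ μ_j = m`.
6. There are a self-correspondence `g` and coprime polynomials `P`, `Q` in one variable such that
   `Λ^(n+1) P(g) = 0` and `Sym^(m+1) Q(g) = 0`. (For example `g` is the graph of an endomorphism.)

The self-correspondences in 2, 3, 4, 5, 6 are arbitrary: of mixed degrees, not idempotent, not
factoring through other motives. `X` is Kimura-finite if and only if this holds for some `n`, `m`.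

(2) Let `a ∈ CH^(dim X)(X × X)_ℚ`. Then `a` is numerically equivalent to the projector of a
decomposition as in 1 if and only if `a ∘ a` is numerically equivalent to `a`, and there is an `r`
with `Λ^(n+1) (a^r) = 0` and `Sym^(m+1) ((Δ - a)^r) = 0`. So, for a variety which satisfies the sign
conjecture, EVERY cycle `a` representing the parity projector decides if it is Kimura-finite, by the
vanishing of the two explicit cycles `Λ^(b₊ + 1) (a^r)` and `Sym^(b₋ + 1) ((Δ - a)^r)` for large `r`
(`b₊` and `b₋` are the total Betti numbers in even and odd degrees). No projector has to be found.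

(3) `h(X) = M₊ ⊕ M₋ ⊕ N` with `M₊`, `M₋` as in 1 and `N` numerically equivalent to zero (a phantom) if
and only if `Δ` is numerically equivalent to `a + b` for some `a, b ∈ CH^(dim X)(X × X)_ℚ` with
`Λ^(n+1) a = 0` and `Sym^(m+1) b = 0`. And 1 holds if and only if, moreover, no nonzero direct summand of
`h(X)` is numerically equivalent to zero.

Idea of the proof. The `a` such that `Λ^n a = 0` for some `n` form a two-sided ideal `I₊` of the ring
`R` of all self-correspondences (`Pool/Agent/Zk90/KG/E.lean`: development of Laplace for the sum), and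
the same for `Sym^n` and `I₋`. Let `tr a = deg (a · Δ)`. Contraction of the vanishing (anti)symmetric
classes shows that the elements of `I₊` and of `I₋` are algebraic over `ℚ`, and that nonzero
idempotents in `I₊` (`I₋`) have positive (negative) trace. So there is no nonzero idempotent in
`I₊ ∩ I₋`, and by the decomposition of Fitting every element of `I₊ ∩ I₋` is nilpotent. If
`Δ = a + b` then `a - a² = a b ∈ I₊ ∩ I₋` is nilpotent; hence there is an idempotent `e ∈ ℚ[a]` with
`e ∈ a R`, `Δ - e ∈ b R`, so that `Λ^(n+1) e = 0` and `Sym^(m+1) (Δ - e) = 0`. Finally `e` is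
conjugate to an idempotent of degree zero (`Pool/Agent/N174/KN/Alg.lean`, starting files). In (2),
`(a - a²)^r = a^r (Δ - a)^r ∈ I₊ ∩ I₋`. In (3), numerically trivial elements of `I₊` and of `I₋` are
nilpotent and `I₊ ∩ I₋` consists of numerically trivial elements; so `a` and `b`, which are idempotent
and orthogonal modulo numerical equivalence, lift to orthogonal idempotents in `a R` and `b R`.

The setting is the one of the starting files: `C` are the Chow groups with rational coefficients of
a class `𝒱` of smooth projective varieties over a field `k` closed under products (for the problem: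
all of them, `k = ℂ`), given by their formal properties (`IsChowProj`).
-/

open CategoryTheory AlgebraicGeometry

set_option autoImplicit false

universe u v

namespace Pool.Agent.Results.MP_868bb7_ag.WithoutProjectors

open Pool.Agent.H914 Pool.Agent.W492.BB Pool.Agent.W550.Corr Pool.Agent.TH133
  Pool.Agent.TH829.Kim Pool.Agent.Zk90.KS

/-- Kimura-finiteness without projectors. -/
theorem result {k : Type u} [Field k] {𝒱 : VarClass k} (C : TheoryData.{u, v, 0} 𝒱 ℚ)
    [IsChowProj C] (hne : ∀ Y : 𝒱.Obj, (1 : C.A Y) ≠ 0) (X : 𝒱.Obj) :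
    (IsKimuraFinite C (ratFam C) X ↔ ∃ n m, HasParts C X n m) ∧ ∀ n m : ℕ, List.TFAE [
      HasParts C X n m,
      ∃ a b : C.A (X.prod X), AltZero C (n + 1) a ∧ SymZero C (m + 1) b ∧ a + b = dg C X,
      ∃ a b s : C.A (X.prod X), AltZero C (n + 1) a ∧ SymZero C (m + 1) b ∧
        (C.comp (a + b) s = dg C X ∨ C.comp s (a + b) = dg C X),
      ∃ a b : C.A (X.prod X), AltZero C (n + 1) a ∧ SymZero C (m + 1) b ∧
        ∃ N, power C (dg C X - (a + b)) N = 0,
      ∃ (r t : ℕ) (a : Fin r → C.A (X.prod X)) (b : Fin t → C.A (X.prod X)) (ν : Fin r → ℕ)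
        (μ : Fin t → ℕ), (∀ i, AltZero C (ν i + 1) (a i)) ∧ (∀ j, SymZero C (μ j + 1) (b j)) ∧
        ∑ i, ν i = n ∧ ∑ j, μ j = m ∧ ∑ i, a i + ∑ j, b j = dg C X,
      ∃ (g : C.A (X.prod X)) (P Q : Polynomial ℚ), IsCoprime P Q ∧
        AltZero C (n + 1) (polyAt C P g) ∧ SymZero C (m + 1) (polyAt C Q g)] ∧
    (∀ a : C.A (X.prod X), C.Deg X.dim a →
      ((∃ e : C.A (X.prod X), C.Deg X.dim e ∧ C.comp e e = e ∧ NumZero C (a - e) ∧
        AltZero C (n + 1) e ∧ SymZero C (m + 1) (dg C X - e)) ↔
      NumZero C (C.comp a a - a) ∧ ∃ r, AltZero C (n + 1) (power C a r) ∧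
        SymZero C (m + 1) (power C (dg C X - a) r))) ∧
    (HasPartsUpToPhantom C X n m ↔
      ∃ a b : C.A (X.prod X), C.Deg X.dim a ∧ C.Deg X.dim b ∧ AltZero C (n + 1) a ∧
        SymZero C (m + 1) b ∧ NumZero C (dg C X - (a + b))) ∧
    (HasParts C X n m ↔ HasPartsUpToPhantom C X n m ∧
      ∀ p : C.A (X.prod X), C.Deg X.dim p → C.comp p p = p → NumZero C p → p = 0) :=
  ⟨isKimuraFinite_iff_hasParts X, fun n m => ⟨main hne X n m, fun a ha => num hne X n m a ha,
    phantom hne X n m⟩⟩

end Pool.Agent.Results.MP_868bb7_ag.WithoutProjectors
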